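import Pool.Agent.ALD.Jn

/-!
# Albertson's conjecture for joins of graphs with few colours or few vertices

There are `ε > 0` and `t₀` such that for every `t ≥ t₀` the following holds.  Let `G` be a finite
graph and `A` a set of vertices which induces a subgraph of chromatic number at least `t` and is
divided into parts `A_i` (`p` is the index of the part) such that vertices of different parts are
adjacent and for every `i`
* `A_i` is `(2/3 + ε) t`-colourable, or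
* `A_i` has at most `(4/3 + ε) t` vertices, or
* `A ∖ A_i` is `q`-colourable for some `q` with `|A_i| + q ≤ (5/3 + ε) t`.
Then every plane drawing of `G` has at least as many crossings as some drawing of `K_t`.
With one part (`A` the whole vertex set, `q = 0`) these are all graphs with `χ(G) ≥ t` and at most
`(5/3 + ε) t` vertices.  Drawings and crossings are those of the frozen statement.
-/

set_option autoImplicit false

namespace Pool.Agent.Results.MP_b9e35b_co.JoinsFewVertices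

theorem result :
    ∃ ε : ℝ, 0 < ε ∧ ∃ t₀ : ℕ, ∀ (n : ℕ) (G : SimpleGraph (Fin n)) (t : ℕ), t₀ ≤ t →
      ∀ (A : Finset (Fin n)) (p : Fin n → ℕ),
      (t : ℕ∞) ≤ (G.comap (Subtype.val : {x : Fin n // x ∈ A} → Fin n)).chromaticNumber →
      (∀ u ∈ A, ∀ v ∈ A, p u ≠ p v → G.Adj u v) →
      (∀ i : ℕ, (Set.ncard {x : Fin n | x ∈ A ∧ p x = i} : ℝ) ≤ (4 / 3 + ε) * (t : ℝ) ∨ ∃ q : ℕ,
        ((q : ℝ) ≤ (2 / 3 + ε) * (t : ℝ) ∧
          (G.comap (Subtype.val : {x : Fin n // x ∈ A ∧ p x = i} → Fin n)).Colorable q) ∨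
        ((Set.ncard {x : Fin n | x ∈ A ∧ p x = i} : ℝ) + (q : ℝ) ≤ (5 / 3 + ε) * (t : ℝ) ∧
          (G.comap (Subtype.val : {x : Fin n // x ∈ A ∧ p x ≠ i} → Fin n)).Colorable q)) →
      ∀ (pos : Fin n → ℝ × ℝ) (γ : ∀ u v : Fin n, Path (pos u) (pos v)),
        Function.Injective pos →
        (∀ u v : Fin n, u < v → G.Adj u v →
          Function.Injective ⇑(γ u v) ∧
            ∀ s : unitInterval, (γ u v) s ∈ Set.range pos → s = 0 ∨ s = 1) →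
        Set.Finite {q : (Fin n × Fin n) × (Fin n × Fin n) × (ℝ × ℝ) |
          q.1.1 < q.1.2 ∧ G.Adj q.1.1 q.1.2 ∧ q.2.1.1 < q.2.1.2 ∧ G.Adj q.2.1.1 q.2.1.2 ∧
          q.1 ≠ q.2.1 ∧ q.2.2 ∈ Set.range ⇑(γ q.1.1 q.1.2) ∧
          q.2.2 ∈ Set.range ⇑(γ q.2.1.1 q.2.1.2) ∧ q.2.2 ∉ Set.range pos} →
        ∃ (pos' : Fin t → ℝ × ℝ) (γ' : ∀ u v : Fin t, Path (pos' u) (pos' v)),
          Function.Injective pos' ∧
          (∀ u v : Fin t, u < v → (⊤ : SimpleGraph (Fin t)).Adj u v →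
            Function.Injective ⇑(γ' u v) ∧
              ∀ s : unitInterval, (γ' u v) s ∈ Set.range pos' → s = 0 ∨ s = 1) ∧
          Set.Finite {q : (Fin t × Fin t) × (Fin t × Fin t) × (ℝ × ℝ) |
            q.1.1 < q.1.2 ∧ (⊤ : SimpleGraph (Fin t)).Adj q.1.1 q.1.2 ∧
            q.2.1.1 < q.2.1.2 ∧ (⊤ : SimpleGraph (Fin t)).Adj q.2.1.1 q.2.1.2 ∧
            q.1 ≠ q.2.1 ∧ q.2.2 ∈ Set.range ⇑(γ' q.1.1 q.1.2) ∧
            q.2.2 ∈ Set.range ⇑(γ' q.2.1.1 q.2.1.2) ∧ q.2.2 ∉ Set.range pos'} ∧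
          Set.ncard {q : (Fin t × Fin t) × (Fin t × Fin t) × (ℝ × ℝ) |
            q.1.1 < q.1.2 ∧ (⊤ : SimpleGraph (Fin t)).Adj q.1.1 q.1.2 ∧
            q.2.1.1 < q.2.1.2 ∧ (⊤ : SimpleGraph (Fin t)).Adj q.2.1.1 q.2.1.2 ∧
            q.1 ≠ q.2.1 ∧ q.2.2 ∈ Set.range ⇑(γ' q.1.1 q.1.2) ∧
            q.2.2 ∈ Set.range ⇑(γ' q.2.1.1 q.2.1.2) ∧ q.2.2 ∉ Set.range pos'}
          ≤ Set.ncard {q : (Fin n × Fin n) × (Fin n × Fin n) × (ℝ × ℝ) |
            q.1.1 < q.1.2 ∧ G.Adj q.1.1 q.1.2 ∧ q.2.1.1 < q.2.1.2 ∧ G.Adj q.2.1.1 q.2.1.2 ∧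
            q.1 ≠ q.2.1 ∧ q.2.2 ∈ Set.range ⇑(γ q.1.1 q.1.2) ∧
            q.2.2 ∈ Set.range ⇑(γ q.2.1.1 q.2.1.2) ∧ q.2.2 ∉ Set.range pos} := by
  obtain ⟨ε, hε, t₀, h⟩ := Pool.Agent.ALD.main_join
  refine ⟨ε, hε, t₀, ?_⟩
  intro n G t ht A p hA hp hq pos γ h1 h2 h3
  obtain ⟨pos', γ', ⟨h4, h5, h6⟩, h7⟩ := h n G t ht A p hA hp hq pos γ ⟨h1, h2, h3⟩
  exact ⟨pos', γ', h4, h5, h6, h7⟩

end Pool.Agent.Results.MP_b9e35b_co.JoinsFewVertices
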