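import Pool.Agent.AXM.Fin

/-!
# Albertson's conjecture for graphs with a large dense part

There are `ε > 0` and `t₀` such that for every `t ≥ t₀`, every finite graph `G` (any number of
vertices) with `χ(G) ≥ t` and a vertex set `A` such that the induced subgraph `G[A]` has chromatic
number at least `(1-ε)t` and minimum degree at least `(5/8-ε)|A|`, and every plane drawing of `G`,
there is a drawing of `K_t` with at most as many crossings.  For `A` the set of all vertices this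
covers all graphs of minimum degree at least `(5/8-ε)n`; for `A` a clique it covers all graphs with
clique number at least `(1-ε)t`.  The statement is the frozen statement of the problem with the
additional hypotheses.
-/

set_option autoImplicit false

namespace Pool.Agent.Results.MP_b9e35b_co.MinDegree

theorem result :
    ∃ ε : ℝ, 0 < ε ∧ ∃ t₀ : ℕ, ∀ (n : ℕ) (G : SimpleGraph (Fin n)) (t k : ℕ), t₀ ≤ t →
      ∀ A : Finset (Fin n), (1 - ε) * (t : ℝ) ≤ (k : ℝ) →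
      (k : ℕ∞) ≤ (G.comap (Subtype.val : {x : Fin n // x ∈ A} → Fin n)).chromaticNumber →
      (∀ v ∈ A, (5 / 8 - ε) * (A.card : ℝ) ≤
        (Set.ncard {x : Fin n | x ∈ A ∧ G.Adj v x} : ℝ)) →
      (t : ℕ∞) ≤ G.chromaticNumber →
      ∀ (pos : Fin n → ℝ × ℝ) (γ : ∀ u v : Fin n, Path (pos u) (pos v)),
        Function.Injective pos →
        (∀ u v : Fin n, u < v → G.Adj u v →
          Function.Injective ⇑(γ u v) ∧
            ∀ s : unitInterval, (γ u v) s ∈ Set.range pos → s = 0 ∨ s = 1) →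
        Set.Finite {q : (Fin n × Fin n) × (Fin n × Fin n) × (ℝ × ℝ) |
          q.1.1 < q.1.2 ∧ G.Adj q.1.1 q.1.2 ∧ q.2.1.1 < q.2.1.2 ∧ G.Adj q.2.1.1 q.2.1.2 ∧
          q.1 ≠ q.2.1 ∧ q.2.2 ∈ Set.range ⇑(γ q.1.1 q.1.2) ∧
          q.2.2 ∈ Set.range ⇑(γ q.2.1.1 q.2.1.2) ∧ q.2.2 ∉ Set.range pos} →
        ∃ (pos' : Fin t → ℝ × ℝ) (γ' : ∀ u v : Fin t, Path (pos' u) (pos' v)),
          Function.Injective pos' ∧
          (∀ u v : Fin t, u < v → (⊤ : SimpleGraph (Fin t)).Adj u v →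
            Function.Injective ⇑(γ' u v) ∧
              ∀ s : unitInterval, (γ' u v) s ∈ Set.range pos' → s = 0 ∨ s = 1) ∧
          Set.Finite {q : (Fin t × Fin t) × (Fin t × Fin t) × (ℝ × ℝ) |
            q.1.1 < q.1.2 ∧ (⊤ : SimpleGraph (Fin t)).Adj q.1.1 q.1.2 ∧
            q.2.1.1 < q.2.1.2 ∧ (⊤ : SimpleGraph (Fin t)).Adj q.2.1.1 q.2.1.2 ∧
            q.1 ≠ q.2.1 ∧ q.2.2 ∈ Set.range ⇑(γ' q.1.1 q.1.2) ∧
            q.2.2 ∈ Set.range ⇑(γ' q.2.1.1 q.2.1.2) ∧ q.2.2 ∉ Set.range pos'} ∧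
          Set.ncard {q : (Fin t × Fin t) × (Fin t × Fin t) × (ℝ × ℝ) |
            q.1.1 < q.1.2 ∧ (⊤ : SimpleGraph (Fin t)).Adj q.1.1 q.1.2 ∧
            q.2.1.1 < q.2.1.2 ∧ (⊤ : SimpleGraph (Fin t)).Adj q.2.1.1 q.2.1.2 ∧
            q.1 ≠ q.2.1 ∧ q.2.2 ∈ Set.range ⇑(γ' q.1.1 q.1.2) ∧
            q.2.2 ∈ Set.range ⇑(γ' q.2.1.1 q.2.1.2) ∧ q.2.2 ∉ Set.range pos'}
          ≤ Set.ncard {q : (Fin n × Fin n) × (Fin n × Fin n) × (ℝ × ℝ) |
            q.1.1 < q.1.2 ∧ G.Adj q.1.1 q.1.2 ∧ q.2.1.1 < q.2.1.2 ∧ G.Adj q.2.1.1 q.2.1.2 ∧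
            q.1 ≠ q.2.1 ∧ q.2.2 ∈ Set.range ⇑(γ q.1.1 q.1.2) ∧
            q.2.2 ∈ Set.range ⇑(γ q.2.1.1 q.2.1.2) ∧ q.2.2 ∉ Set.range pos} := by
  obtain ⟨ε, hε, t₀, h⟩ := Pool.Agent.AXM.mainAR
  refine ⟨ε, hε, t₀, ?_⟩
  intro n G t k ht A hk hkχ hdeg hχ pos γ h1 h2 h3
  obtain ⟨pos', γ', ⟨h4, h5, h6⟩, h7⟩ := h n G t k ht A hk hkχ hdeg hχ pos γ ⟨h1, h2, h3⟩
  exact ⟨pos', γ', h4, h5, h6, h7⟩

end Pool.Agent.Results.MP_b9e35b_co.MinDegree
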