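import Pool.Agent.AIM.Main

/-!
# Albertson's conjecture for graphs with a nearly complete strong immersion

There are `ε > 0` and `t₀` such that for every `t ≥ t₀` and every finite graph `G`: if some induced
subgraph of `G` is not `(t - 1)`-colourable, becomes `(t - 1)`-colourable when any one of its vertices
is deleted, and contains a strong immersion of some graph `Γ` with at most `t` vertices and at least
`(1 - ε) t² / 2` edges, then for every plane drawing of `G` there is a drawing of `K_t` with at most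
as many crossings.  Drawings and the count of crossings are those of the frozen statement.
-/

set_option autoImplicit false

namespace Pool.Agent.Results.MP_b9e35b_co.StrongImmersion

theorem result :
    ∃ ε : ℝ, 0 < ε ∧ ∃ t₀ : ℕ, ∀ (n : ℕ) (G : SimpleGraph (Fin n)) (t : ℕ), t₀ ≤ t →
      ∀ A : Finset (Fin n),
      ¬ (G.comap (Subtype.val : {x : Fin n // x ∈ A} → Fin n)).Colorable (t - 1) →
      (∀ v ∈ A,
        (G.comap (Subtype.val : {x : Fin n // x ∈ A.erase v} → Fin n)).Colorable (t - 1)) →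
      ∀ (m : ℕ) (Γ : SimpleGraph (Fin m)), m ≤ t →
      (1 - ε) * (t : ℝ) ^ 2 ≤ ({p : Fin m × Fin m | Γ.Adj p.1 p.2}.ncard : ℝ) →
      Pool.Agent.AIM.SImm Γ (G.comap (Subtype.val : {x : Fin n // x ∈ A} → Fin n)) →
      ∀ (pos : Fin n → ℝ × ℝ) (γ : ∀ u v : Fin n, Path (pos u) (pos v)),
        Function.Injective pos →
        (∀ u v : Fin n, u < v → G.Adj u v →
          Function.Injective ⇑(γ u v) ∧
            ∀ s : unitInterval, (γ u v) s ∈ Set.range pos → s = 0 ∨ s = 1) →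
        Set.Finite {q : (Fin n × Fin n) × (Fin n × Fin n) × (ℝ × ℝ) |
          q.1.1 < q.1.2 ∧ G.Adj q.1.1 q.1.2 ∧ q.2.1.1 < q.2.1.2 ∧ G.Adj q.2.1.1 q.2.1.2 ∧
          q.1 ≠ q.2.1 ∧ q.2.2 ∈ Set.range ⇑(γ q.1.1 q.1.2) ∧
          q.2.2 ∈ Set.range ⇑(γ q.2.1.1 q.2.1.2) ∧ q.2.2 ∉ Set.range pos} →
        ∃ (pos' : Fin t → ℝ × ℝ) (γ' : ∀ u v : Fin t, Path (pos' u) (pos' v)),
          Function.Injective pos' ∧
          (∀ u v : Fin t, u < v → (⊤ : SimpleGraph (Fin t)).Adj u v →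
            Function.Injective ⇑(γ' u v) ∧
              ∀ s : unitInterval, (γ' u v) s ∈ Set.range pos' → s = 0 ∨ s = 1) ∧
          Set.Finite {q : (Fin t × Fin t) × (Fin t × Fin t) × (ℝ × ℝ) |
            q.1.1 < q.1.2 ∧ (⊤ : SimpleGraph (Fin t)).Adj q.1.1 q.1.2 ∧
            q.2.1.1 < q.2.1.2 ∧ (⊤ : SimpleGraph (Fin t)).Adj q.2.1.1 q.2.1.2 ∧
            q.1 ≠ q.2.1 ∧ q.2.2 ∈ Set.range ⇑(γ' q.1.1 q.1.2) ∧
            q.2.2 ∈ Set.range ⇑(γ' q.2.1.1 q.2.1.2) ∧ q.2.2 ∉ Set.range pos'} ∧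
          Set.ncard {q : (Fin t × Fin t) × (Fin t × Fin t) × (ℝ × ℝ) |
            q.1.1 < q.1.2 ∧ (⊤ : SimpleGraph (Fin t)).Adj q.1.1 q.1.2 ∧
            q.2.1.1 < q.2.1.2 ∧ (⊤ : SimpleGraph (Fin t)).Adj q.2.1.1 q.2.1.2 ∧
            q.1 ≠ q.2.1 ∧ q.2.2 ∈ Set.range ⇑(γ' q.1.1 q.1.2) ∧
            q.2.2 ∈ Set.range ⇑(γ' q.2.1.1 q.2.1.2) ∧ q.2.2 ∉ Set.range pos'}
          ≤ Set.ncard {q : (Fin n × Fin n) × (Fin n × Fin n) × (ℝ × ℝ) |
            q.1.1 < q.1.2 ∧ G.Adj q.1.1 q.1.2 ∧ q.2.1.1 < q.2.1.2 ∧ G.Adj q.2.1.1 q.2.1.2 ∧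
            q.1 ≠ q.2.1 ∧ q.2.2 ∈ Set.range ⇑(γ q.1.1 q.1.2) ∧
            q.2.2 ∈ Set.range ⇑(γ q.2.1.1 q.2.1.2) ∧ q.2.2 ∉ Set.range pos} := by
  obtain ⟨ε, hε, t₀, h⟩ := Pool.Agent.AIM.main
  refine ⟨ε, hε, t₀, ?_⟩
  intro n G t ht A hA1 hA2 m Γ hm hΓ hI pos γ h1 h2 h3
  obtain ⟨pos', γ', ⟨h4, h5, h6⟩, h7⟩ := h n G t ht A hA1 hA2 m Γ hm hΓ hI pos γ ⟨h1, h2, h3⟩
  exact ⟨pos', γ', h4, h5, h6, h7⟩

end Pool.Agent.Results.MP_b9e35b_co.StrongImmersion
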